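import Pool.Agent.W_b4801b_h89.Main

/-!
# MP_b4801b_ag : local tests for semisimplicity of polarised Galois representations

`V` is the cohomology group `H^i(X)` of a smooth projective variety over a number field `k`, with
coefficients in the completion `K` of an algebraic closure of `ℚ_ℓ`, `G` is the absolute Galois
group of `k`, `B` is the polarisation (hard Lefschetz and Poincaré duality) and `χ` is the power of
the cyclotomic character by which `G` acts on the form.  A `G`-stable subspace `W` which is not
complemented by its orthogonal contains a nonzero `G`-stable isotropic subspace.  If every possible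
dimension `a` of the latter is excluded by one of three tests (at one Frobenius element, at the
Hodge-Tate weights, at the monodromy operator of one place), then `V` is semisimple, each `G`-stable
subspace being complemented by its orthogonal.  In particular this holds when all multiplicities
of the weights are at most one and the weights are small.
-/

set_option autoImplicit false

namespace Pool.Agent.B4801bH89.OldLocalTests

open Module HS89

theorem result {K : Type*} [Field K] [IsAlgClosed K] [CharZero K] {G : Type*} [Group G]
    {V : Type*} [AddCommGroup V] [Module K V] [FiniteDimensional K V]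
    (ρ : Representation K G V) (B : LinearMap.BilinForm K V) (χ : G → K)
    (hB : B.Nondegenerate) (hrefl : B.IsRefl)
    (hχ : ∀ g x y, B (ρ g x) (ρ g y) = χ g * B x y)
    (htest : (∀ a : ℕ, 1 ≤ a → 2 * a ≤ finrank K V →
        (∃ g, FrobeniusTest ρ χ a g) ∨ (∃ T, HodgeTest ρ B a T) ∨
          ∃ T N, MonodromyTest ρ B a T N) ∨
      ∃ T, WeightOp ρ B T ∧ (∀ j, mult T j ≤ 1) ∧
        ((∀ j, mult T j ≠ 0 → j ∈ ({-5, -3, -1, 1, 3, 5} : Finset ℤ)) ∨
          ∀ j, mult T j ≠ 0 → j ∈ ({-4, -2, 0, 2, 4} : Finset ℤ)))
    (W : Submodule K V) (hW : Stable ρ W) :
    Stable ρ (B.orthogonal W) ∧ IsCompl W (B.orthogonal W) := by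
  refine main hB hrefl hχ ?_ W hW
  rcases htest with h | ⟨T, hT, h1, h2⟩
  · exact h
  · exact fun a ha _ => Or.inr (Or.inl ⟨T, small_test hT h1 h2 ha⟩)

end Pool.Agent.B4801bH89.OldLocalTests
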