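import Mathlib

/-!
# MP_b4801b_ag : combinatorics of weights
-/

set_option autoImplicit false
set_option linter.unusedSectionVars false

open scoped Classical

namespace HS89

/-- a bound for a multiset of integers -/
theorem exists_bd (S : Multiset ℤ) : ∃ M : ℕ, ∀ j ∈ S, j ∈ Finset.Icc (-(M : ℤ)) M := by
  refine ⟨(S.map Int.natAbs).sum, ?_⟩
  intro j hj
  have h1 : j.natAbs ≤ (S.map Int.natAbs).sum :=
    Multiset.single_le_sum (fun x _ => Nat.zero_le x) _ (Multiset.mem_map_of_mem _ hj)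
  rw [Finset.mem_Icc]
  omega

theorem sum_refl (M : ℕ) (F : ℤ → ℤ) :
    ∑ j ∈ Finset.Icc (-(M : ℤ)) M, F (-j) = ∑ j ∈ Finset.Icc (-(M : ℤ)) M, F j := by
  apply Finset.sum_nbij' (fun j => -j) (fun j => -j)
  · intro j hj
    rw [Finset.mem_Icc] at hj ⊢
    omega
  · intro j hj
    rw [Finset.mem_Icc] at hj ⊢
    omega
  · intro j _
    exact neg_neg j
  · intro j _
    exact neg_neg j
  · intro j _
    rfl

/-- if the weights have sum zero and `count j ≤ count (-j)` for `j ≥ 1`, then equality holds -/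
theorem symm_of_sum (S : Multiset ℤ) (h0 : S.sum = 0)
    (h1 : ∀ j : ℕ, 1 ≤ j → S.count (j : ℤ) ≤ S.count (-(j : ℤ))) (j : ℤ) :
    S.count j = S.count (-j) := by
  obtain ⟨M, hM⟩ := exists_bd S
  have hsub : S.toFinset ⊆ Finset.Icc (-(M : ℤ)) M := by
    intro x hx
    exact hM x (Multiset.mem_toFinset.1 hx)
  have h2 : ∑ j ∈ Finset.Icc (-(M : ℤ)) M, (S.count j : ℤ) * j = 0 := by
    rw [← h0, Finset.sum_multiset_count_of_subset S _ hsub]
    apply Finset.sum_congr rfl
    intro j _
    rw [nsmul_eq_mul]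
  have h3 : ∑ j ∈ Finset.Icc (-(M : ℤ)) M, (S.count (-j) : ℤ) * (-j) = 0 := by
    rw [← h2]
    exact sum_refl M (fun j => (S.count j : ℤ) * j)
  have h4 : ∑ j ∈ Finset.Icc (-(M : ℤ)) M, ((S.count (-j) : ℤ) - S.count j) * j = 0 := by
    have h5 : ∑ j ∈ Finset.Icc (-(M : ℤ)) M, ((S.count (-j) : ℤ) - S.count j) * j =
        -(∑ j ∈ Finset.Icc (-(M : ℤ)) M, (S.count j : ℤ) * j) -
          ∑ j ∈ Finset.Icc (-(M : ℤ)) M, (S.count (-j) : ℤ) * (-j) := by
      rw [← Finset.sum_neg_distrib, ← Finset.sum_sub_distrib]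
      apply Finset.sum_congr rfl
      intro j _
      ring
    rw [h5, h2, h3]
    norm_num
  have h6 : ∀ j ∈ Finset.Icc (-(M : ℤ)) M, 0 ≤ ((S.count (-j) : ℤ) - S.count j) * j := by
    intro j _
    rcases lt_trichotomy j 0 with h | h | h
    · have h7 := h1 j.natAbs (by omega)
      have h8 : ((j.natAbs : ℕ) : ℤ) = -j := by omega
      rw [h8, neg_neg] at h7
      apply mul_nonneg_of_nonpos_of_nonpos
      · have : (S.count (-j) : ℤ) ≤ S.count j := by exact_mod_cast h7
        linarith
      · exact h.le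
    · rw [h, mul_zero]
    · have h7 := h1 j.natAbs (by omega)
      have h8 : ((j.natAbs : ℕ) : ℤ) = j := by omega
      rw [h8] at h7
      apply mul_nonneg
      · have : (S.count j : ℤ) ≤ S.count (-j) := by exact_mod_cast h7
        linarith
      · exact h.le
  by_cases hj : j ∈ Finset.Icc (-(M : ℤ)) M
  · have h9 := (Finset.sum_eq_zero_iff_of_nonneg h6).1 h4 j hj
    rcases mul_eq_zero.1 h9 with h10 | h10
    · have : (S.count (-j) : ℤ) = S.count j := by linarith
      exact_mod_cast this.symm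
    · rw [h10, neg_zero]
  · have h9 : -j ∉ Finset.Icc (-(M : ℤ)) M := by
      intro h
      apply hj
      rw [Finset.mem_Icc] at h ⊢
      omega
    rw [Multiset.count_eq_zero_of_notMem (fun h => hj (hM j h)),
      Multiset.count_eq_zero_of_notMem (fun h => h9 (hM _ h))]

theorem sum_even (f : ℤ → ℕ) (hf : ∀ j, f j = f (-j)) (n : ℕ) :
    ∑ j ∈ Finset.Icc (-(n : ℤ)) n, f j = f 0 + 2 * ∑ j ∈ Finset.range n, f ((j : ℤ) + 1) := by
  induction n with
  | zero => simp
  | succ n ih =>
    have h1 : Finset.Icc (-((n + 1 : ℕ) : ℤ)) ((n + 1 : ℕ) : ℤ) =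
        insert (-((n : ℤ) + 1)) (insert ((n : ℤ) + 1) (Finset.Icc (-(n : ℤ)) n)) := by
      ext x
      simp only [Finset.mem_insert, Finset.mem_Icc]
      push_cast
      omega
    rw [h1, Finset.sum_insert, Finset.sum_insert, ih, Finset.sum_range_succ, ← hf]
    · ring
    · simp only [Finset.mem_Icc]
      omega
    · simp only [Finset.mem_insert, Finset.mem_Icc]
      omega

theorem blocks_sum (c : ℕ → ℕ) (hc : ∀ m, c (m + 2) ≤ c m) (n : ℕ) :
    (∑ m ∈ Finset.range n, (c m - c (m + 2)) * (m + 1)) + (n + 1) * c n + n * c (n + 1) =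
      c 0 + 2 * ∑ j ∈ Finset.range n, c (j + 1) := by
  induction n with
  | zero => simp
  | succ n ih =>
    rw [Finset.sum_range_succ, Finset.sum_range_succ]
    obtain ⟨d, hd⟩ := Nat.exists_eq_add_of_le (hc n)
    have h1 : c n - c (n + 2) = d := by omega
    rw [h1]
    rw [hd] at ih
    have h2 : c (n + 1 + 1) = c (n + 2) := rfl
    rw [h2]
    linarith

/-- the multiset of block sizes -/
theorem exists_blocks (c : ℕ → ℕ) (hc : ∀ m, c (m + 2) ≤ c m) (n : ℕ)
    (hn : ∀ m, n ≤ m → c m = 0) :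
    ∃ S : Multiset ℕ, S.sum = c 0 + 2 * ∑ j ∈ Finset.range n, c (j + 1) ∧
      ∀ m, S.count (m + 1) = c m - c (m + 2) := by
  refine ⟨∑ m ∈ Finset.range n, Multiset.replicate (c m - c (m + 2)) (m + 1), ?_, ?_⟩
  · have h1 := blocks_sum c hc n
    rw [hn n le_rfl, hn (n + 1) (by omega)] at h1
    rw [← h1, mul_zero, mul_zero, add_zero, add_zero]
    rw [← Multiset.coe_sumAddMonoidHom, map_sum]
    apply Finset.sum_congr rfl
    intro m _
    rw [Multiset.coe_sumAddMonoidHom, Multiset.sum_replicate, smul_eq_mul]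
  · intro m
    rw [Multiset.count_sum']
    simp only [Multiset.count_replicate]
    by_cases hm : m < n
    · rw [Finset.sum_eq_single m]
      · simp
      · intro b _ hb
        rw [if_neg]
        omega
      · intro h
        exact absurd (Finset.mem_range.2 hm) h
    · rw [hn m (by omega)]
      rw [Finset.sum_eq_zero]
      · simp
      · intro b hb
        rw [Finset.mem_range] at hb
        rw [if_neg]
        omega

end HS89
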