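import Mathlib

/-!
# MP_b4801b_ag : local tests for semisimplicity, definitions

`K` is an algebraically closed field of characteristic zero (for instance the completion of an
algebraic closure of `ℚ_ℓ`), `G` is a group (an absolute Galois group), `V` is a finite dimensional
`K`-space with a linear action `ρ` of `G` (the cohomology group `H^i(X)` with coefficients in `K`),
`B` is a form on `V` (the polarisation) and `χ` is its multiplier.
-/

set_option autoImplicit false

set_option linter.unusedSectionVars false

open Module

namespace HS89

variable {K : Type*} [Field K] {G : Type*} [Group G] {V : Type*} [AddCommGroup V] [Module K V]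
  [FiniteDimensional K V]

/-- The subspace `W` is `G`-stable. -/
def Stable (ρ : Representation K G V) (W : Submodule K V) : Prop :=
  ∀ g, ∀ x ∈ W, ρ g x ∈ W

/-- Frobenius test for dimension `a`.  (1) On each `G`-stable subspace `W`, the determinant of `g`
is, up to a root of unity, the square root of `χ g ^ (dim W)`.  (2) There is no multiset `S` of `a`
eigenvalues of `g`, disjoint from the multiset of the `χ g / α`, `α ∈ S`, in the sense of
multisets of eigenvalues with multiplicities, for which the product of `S` is a square root of
`χ g ^ a` up to a root of unity. -/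
def FrobeniusTest (ρ : Representation K G V) (χ : G → K) (a : ℕ) (g : G) : Prop :=
  (∀ (W : Submodule K V) (hW : Stable ρ W), ∃ m : ℕ, 1 ≤ m ∧
      LinearMap.det ((ρ g).restrict (hW g)) ^ (2 * m) = χ g ^ (finrank K W * m)) ∧
    ∀ S : Multiset K, S.card = a → S + S.map (fun α => χ g / α) ≤ (ρ g).charpoly.roots →
      ∀ m : ℕ, 1 ≤ m → S.prod ^ (2 * m) ≠ χ g ^ (a * m)

/-- A weight operator: an endomorphism `T` with integral eigenvalues, skew for the form `B`, which
maps each `G`-stable subspace into itself and has trace zero on it. -/
structure WeightOp (ρ : Representation K G V) (B : LinearMap.BilinForm K V) (T : End K V) :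
    Prop where
  stable : ∀ W : Submodule K V, Stable ρ W → ∀ x ∈ W, T x ∈ W
  skew : ∀ x y, B (T x) y = -B x (T y)
  int : ∀ μ : K, T.HasEigenvalue μ → ∃ j : ℤ, μ = j
  trace : ∀ (W : Submodule K V) (hW : Stable ρ W),
    LinearMap.trace K W (T.restrict (stable W hW)) = 0

/-- The multiplicity of the weight `j`. -/
noncomputable def mult (T : End K V) (j : ℤ) : ℕ := finrank K (T.maxGenEigenspace (j : K))

/-- Hodge test for dimension `a`: `T` is a weight operator, and there is no multiset `S` of `a`
weights with sum zero in which, for all `j`, the weights `j` and `-j` together occur at most as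
often as `j` occurs in `V`. -/
def HodgeTest (ρ : Representation K G V) (B : LinearMap.BilinForm K V) (a : ℕ) (T : End K V) :
    Prop :=
  WeightOp ρ B T ∧ ∀ S : Multiset ℤ, S.card = a →
    (∀ j, S.count j + S.count (-j) ≤ mult T j) → S.sum ≠ 0

/-- Monodromy test for dimension `a`: `T` is a weight operator and `N` satisfies the
weight-monodromy condition for it (`N` maps each `G`-stable subspace into itself, lowers the weights
by two, and `N ^ j` is injective on the part of weight `j`, for `j ≥ 1`; so the number of Jordan
blocks of size `m` of `N` is `mult T (m - 1) - mult T (m + 1)`), and there is no multiset `S` of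
block sizes with sum `a` in which each size `m` occurs at most half as often as in `N`. -/
def MonodromyTest (ρ : Representation K G V) (B : LinearMap.BilinForm K V) (a : ℕ)
    (T N : End K V) : Prop :=
  WeightOp ρ B T ∧ (∀ W : Submodule K V, Stable ρ W → ∀ x ∈ W, N x ∈ W) ∧
    T * N - N * T = -(2 : K) • N ∧
    (∀ j : ℕ, 1 ≤ j → ∀ x ∈ T.maxGenEigenspace (j : K), (N ^ j) x = 0 → x = 0) ∧
    ∀ S : Multiset ℕ, S.sum = a →
      ∃ m : ℕ, 1 ≤ m ∧ mult T ((m : ℤ) - 1) < 2 * S.count m + mult T ((m : ℤ) + 1)

end HS89
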