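import Pool.Agent.W_b4801b_h89.Pair
import Pool.Agent.W_b4801b_h89.Defs
import Pool.Agent.W_b4801b_h89.Comb

/-!
# MP_b4801b_ag : the Hodge test excludes isotropic stable subspaces
-/

set_option autoImplicit false
set_option linter.unusedSectionVars false

open Module
open scoped Classical

namespace HS89

variable {K : Type*} [Field K] [IsAlgClosed K] [CharZero K] {G : Type*} [Group G]
  {V : Type*} [AddCommGroup V] [Module K V] [FiniteDimensional K V]
  {ρ : Representation K G V} {B : LinearMap.BilinForm K V} {T : End K V}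

/-- a multiset of elements which are all integers comes from a multiset of integers -/
theorem lift_int (R : Multiset K) (h : ∀ μ ∈ R, ∃ j : ℤ, μ = j) :
    ∃ S : Multiset ℤ, S.map (fun j : ℤ => (j : K)) = R := by
  induction R using Multiset.induction_on with
  | empty => exact ⟨0, rfl⟩
  | cons a R ih =>
    obtain ⟨S, hS⟩ := ih (fun μ hμ => h μ (Multiset.mem_cons_of_mem hμ))
    obtain ⟨j, hj⟩ := h a (Multiset.mem_cons_self a R)
    exact ⟨j ::ₘ S, by rw [Multiset.map_cons, hS, hj]⟩

/-- the weights on a stable subspace -/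
theorem weights (hT : WeightOp ρ B T) {W : Submodule K V} (hW : Stable ρ W) :
    ∃ S : Multiset ℤ, S.card = finrank K W ∧ S.sum = 0 ∧
      ∀ j : ℤ, S.count j = finrank K (W ⊓ T.maxGenEigenspace (j : K) : Submodule K V) := by
  set f : End K W := T.restrict (hT.stable W hW) with hf
  obtain ⟨S, hS⟩ := lift_int f.charpoly.roots (by
    intro μ hμ
    rw [Polynomial.mem_roots f.charpoly_monic.ne_zero] at hμ
    have h1 : f.HasEigenvalue μ := (End.hasEigenvalue_iff_isRoot_charpoly f μ).2 hμ
    obtain ⟨x, hx⟩ := h1.exists_hasEigenvector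
    apply hT.int μ
    have h2 : T.HasEigenvector μ (x : V) := by
      rw [End.hasEigenvector_iff] at hx ⊢
      obtain ⟨h3, h4⟩ := hx
      rw [End.mem_eigenspace_iff] at h3 ⊢
      refine ⟨?_, fun h => h4 (Subtype.ext h)⟩
      have h5 := congrArg (Subtype.val : W → V) h3
      exact h5
    exact End.hasEigenvalue_of_hasEigenvector h2)
  refine ⟨S, ?_, ?_, ?_⟩
  · rw [← card_roots_restrict f, ← hS, Multiset.card_map]
  · have h1 : ((S.sum : ℤ) : K) = 0 := by
      have h2 : ((S.sum : ℤ) : K) = (S.map (fun j : ℤ => (j : K))).sum :=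
        map_multiset_sum (Int.castAddHom K) S
      rw [h2, hS, ← End.trace_eq_sum_roots_charpoly_of_splits (IsAlgClosed.splits f.charpoly)]
      exact hT.trace W hW
    exact_mod_cast h1
  · intro j
    rw [finrank_inf_gen (hT.stable W hW), ← hf, ← hS]
    exact (Multiset.count_map_eq_count' (fun j : ℤ => (j : K)) S Int.cast_injective j).symm

theorem gen_neg (j : ℤ) :
    T.maxGenEigenspace (((-j : ℤ)) : K) ≤ (-T).maxGenEigenspace (j : K) := by
  intro x hx
  rw [End.mem_maxGenEigenspace] at hx ⊢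
  obtain ⟨k, hk⟩ := hx
  refine ⟨k, ?_⟩
  have h1 : -T - (j : K) • (1 : End K V) = -(T - ((-j : ℤ) : K) • (1 : End K V)) := by
    push_cast
    rw [neg_smul, sub_neg_eq_add, neg_add, sub_eq_add_neg]
  rw [h1, neg_pow, Module.End.mul_apply, hk, map_zero]

theorem skew' (hT : WeightOp ρ B T) (x y : V) : B (T x) y = B x ((-T) y) := by
  rw [hT.skew, LinearMap.neg_apply, map_neg]

/-- the weights on an isotropic stable subspace -/
theorem weights_le (hB : B.Nondegenerate) (hT : WeightOp ρ B T) {W : Submodule K V}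
    (hiso : ∀ x ∈ W, ∀ y ∈ W, B x y = 0) (j : ℤ) :
    finrank K (W ⊓ T.maxGenEigenspace (j : K) : Submodule K V) +
      finrank K (W ⊓ T.maxGenEigenspace ((-j : ℤ) : K) : Submodule K V) ≤ mult T j :=
  iso_le hB (skew' hT) hiso (gen_neg j)

theorem hodge_iso (hB : B.Nondegenerate) {W : Submodule K V} (hW : Stable ρ W)
    (hiso : ∀ x ∈ W, ∀ y ∈ W, B x y = 0) (ht : HodgeTest ρ B (finrank K W) T) : False := by
  obtain ⟨hT, h2⟩ := ht
  obtain ⟨S, hS1, hS2, hS3⟩ := weights hT hW
  refine h2 S hS1 ?_ hS2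
  intro j
  rw [hS3, hS3]
  exact weights_le hB hT hiso j

end HS89
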