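import Pool.Agent.W_b4801b_h89.Mono

/-!
# MP_b4801b_ag : the monodromy test excludes isotropic stable subspaces
-/

set_option autoImplicit false
set_option linter.unusedSectionVars false

open Module
open scoped Classical

namespace HS89

variable {K : Type*} [Field K] [IsAlgClosed K] [CharZero K] {G : Type*} [Group G]
  {V : Type*} [AddCommGroup V] [Module K V] [FiniteDimensional K V]
  {ρ : Representation K G V} {B : LinearMap.BilinForm K V} {χ : G → K} {T N : End K V}

/-- the orthogonal of a stable subspace is stable -/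
theorem stable_orth (hχ : ∀ g x y, B (ρ g x) (ρ g y) = χ g * B x y) {W : Submodule K V}
    (hW : Stable ρ W) : Stable ρ (B.orthogonal W) := by
  intro g x hx
  rw [LinearMap.BilinForm.mem_orthogonal_iff] at hx ⊢
  intro y hy
  have h1 := hχ g (ρ g⁻¹ y) x
  rw [← Module.End.mul_apply (ρ g) (ρ g⁻¹), ← map_mul, mul_inv_cancel, map_one,
    Module.End.one_apply] at h1
  have h2 : B (ρ g⁻¹ y) x = 0 := hx _ (hW g⁻¹ y hy)
  rw [h2, mul_zero] at h1
  exact h1

/-- `N` is injective on the part of weight `m + 2` -/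
theorem N_inj (hinj : ∀ j : ℕ, 1 ≤ j → ∀ x ∈ T.maxGenEigenspace (j : K), (N ^ j) x = 0 → x = 0)
    (m : ℕ) {x : V} (hx : x ∈ T.maxGenEigenspace (((m + 2 : ℕ) : ℤ) : K)) (h : N x = 0) :
    x = 0 := by
  apply hinj (m + 2) (by omega)
  · rw [Int.cast_natCast] at hx
    exact hx
  · rw [show m + 2 = (m + 1) + 1 from rfl, pow_succ, Module.End.mul_apply, h, map_zero]

theorem finrank_map_N
    (hinj : ∀ j : ℕ, 1 ≤ j → ∀ x ∈ T.maxGenEigenspace (j : K), (N ^ j) x = 0 → x = 0)
    (m : ℕ) {A : Submodule K V} (hA : A ≤ T.maxGenEigenspace (((m + 2 : ℕ) : ℤ) : K)) :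
    finrank K (A.map N) = finrank K A := by
  have h1 : Function.Injective (N.domRestrict A) := by
    rw [← LinearMap.ker_eq_bot, Submodule.eq_bot_iff]
    intro x hx
    rw [LinearMap.mem_ker] at hx
    apply Subtype.ext
    exact N_inj hinj m (hA x.2) hx
  rw [← LinearMap.range_domRestrict]
  exact LinearMap.finrank_range_of_inj h1

theorem N_lower2 (hN : T * N - N * T = -(2 : K) • N) (m : ℕ) {x : V}
    (hx : x ∈ T.maxGenEigenspace (((m + 2 : ℕ) : ℤ) : K)) :
    N x ∈ T.maxGenEigenspace ((m : ℤ) : K) := by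
  have h1 := N_lower hN _ hx
  have h2 : (((m + 2 : ℕ) : ℤ) - 2) = (m : ℤ) := by
    push_cast
    ring
  rw [h2] at h1
  exact h1

/-- The number of Jordan blocks of each size on an isotropic stable subspace is at most half of the
number of the Jordan blocks of the same size on `V`. -/
theorem half_blocks (hB : B.Nondegenerate) (hrefl : B.IsRefl)
    (hχ : ∀ g x y, B (ρ g x) (ρ g y) = χ g * B x y) (hT : WeightOp ρ B T)
    (hNs : ∀ W : Submodule K V, Stable ρ W → ∀ x ∈ W, N x ∈ W)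
    (hN : T * N - N * T = -(2 : K) • N)
    (hinj : ∀ j : ℕ, 1 ≤ j → ∀ x ∈ T.maxGenEigenspace (j : K), (N ^ j) x = 0 → x = 0)
    {W : Submodule K V} (hW : Stable ρ W) (hiso : ∀ x ∈ W, ∀ y ∈ W, B x y = 0)
    (hs : ∀ j : ℤ, finrank K (W ⊓ T.maxGenEigenspace (j : K) : Submodule K V) =
      finrank K (W ⊓ T.maxGenEigenspace ((-j : ℤ) : K) : Submodule K V)) (m : ℕ) :
    mult T ((m + 2 : ℕ) : ℤ) +
        2 * finrank K (W ⊓ T.maxGenEigenspace ((m : ℤ) : K) : Submodule K V) ≤
      mult T (m : ℤ) +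
        2 * finrank K (W ⊓ T.maxGenEigenspace (((m + 2 : ℕ) : ℤ) : K) : Submodule K V) := by
  have hWp : Stable ρ (B.orthogonal W) := stable_orth hχ hW
  have hA := perp_ge hT hW (W' := B.orthogonal W) (by
    intro x hx
    rw [LinearMap.BilinForm.mem_orthogonal_iff]
    exact hx) ((m + 2 : ℕ) : ℤ)
  rw [← hs] at hA
  have hD : finrank K (B.orthogonal W ⊓ T.maxGenEigenspace ((m : ℤ) : K) : Submodule K V) +
      finrank K (W ⊓ T.maxGenEigenspace ((-(m : ℤ) : ℤ) : K) : Submodule K V) ≤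
        mult T (m : ℤ) := by
    apply pair_le (B := B)
    · intro y hy h
      exact gen_perf hB (skew' hT) (gen_neg _ hy.2) h
    · exact inf_le_right
    · intro x hx y hy
      have h1 : B y x = 0 := LinearMap.BilinForm.mem_orthogonal_iff.1 hx.1 y hy.1
      exact hrefl y x h1
  rw [← hs] at hD
  set A : Submodule K V := B.orthogonal W ⊓ T.maxGenEigenspace (((m + 2 : ℕ) : ℤ) : K) with hAdef
  set D : Submodule K V := B.orthogonal W ⊓ T.maxGenEigenspace ((m : ℤ) : K) with hDdef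
  set U : Submodule K V := W ⊓ T.maxGenEigenspace ((m : ℤ) : K) with hUdef
  set U2 : Submodule K V := W ⊓ T.maxGenEigenspace (((m + 2 : ℕ) : ℤ) : K) with hU2def
  have h1 : finrank K (A.map N) = finrank K A := finrank_map_N hinj m inf_le_right
  have h2 : finrank K (U2.map N) = finrank K U2 := finrank_map_N hinj m inf_le_right
  have h3 : A.map N ⊔ U ≤ D := by
    apply sup_le
    · rintro _ ⟨x, hx, rfl⟩
      exact ⟨hNs _ hWp x hx.1, N_lower2 hN m hx.2⟩
    · intro x hx
      exact ⟨LinearMap.BilinForm.mem_orthogonal_iff.2 fun y hy => hiso y hy x hx.1, hx.2⟩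
  have h4 : A.map N ⊓ U ≤ U2.map N := by
    rintro _ ⟨⟨x, hx, rfl⟩, hx2⟩
    exact ⟨x, ⟨key_mem hN hinj (hNs W hW) m (hs _) hx.2 hx2.1, hx.2⟩, rfl⟩
  have h5 := Submodule.finrank_sup_add_finrank_inf_eq (A.map N) U
  have h6 := Submodule.finrank_mono h3
  have h7 := Submodule.finrank_mono h4
  omega

theorem mono_iso (hB : B.Nondegenerate) (hrefl : B.IsRefl)
    (hχ : ∀ g x y, B (ρ g x) (ρ g y) = χ g * B x y) {W : Submodule K V} (hW : Stable ρ W)
    (hiso : ∀ x ∈ W, ∀ y ∈ W, B x y = 0) (ht : MonodromyTest ρ B (finrank K W) T N) : False := by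
  obtain ⟨hT, hNs, hN, hinj, htest⟩ := ht
  obtain ⟨S, hS1, hS2, hS3⟩ := weights hT hW
  have hsymm := symm_of_sum S hS2 (by
    intro j hj
    rw [hS3, hS3]
    have h1 : (W ⊓ T.maxGenEigenspace ((j : ℤ) : K) : Submodule K V).map (N ^ j) ≤
        (W ⊓ T.maxGenEigenspace ((-(j : ℤ) : ℤ) : K) : Submodule K V) := by
      rintro _ ⟨x, hx, rfl⟩
      refine ⟨pow_stable (hNs W hW) j hx.1, ?_⟩
      have h1 := N_pow_lower hN j (j : ℤ) hx.2
      have h2 : ((j : ℤ) - 2 * (j : ℤ)) = -(j : ℤ) := by ring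
      rw [h2] at h1
      exact h1
    have h2 : Function.Injective ((N ^ j).domRestrict
        (W ⊓ T.maxGenEigenspace ((j : ℤ) : K) : Submodule K V)) := by
      rw [← LinearMap.ker_eq_bot, Submodule.eq_bot_iff]
      intro x hx
      rw [LinearMap.mem_ker] at hx
      apply Subtype.ext
      refine hinj j hj x.1 ?_ hx
      have h3 : x.1 ∈ T.maxGenEigenspace ((j : ℤ) : K) := x.2.2
      have h4 : T.maxGenEigenspace ((j : ℤ) : K) = T.maxGenEigenspace (j : K) := by
        rw [Int.cast_natCast]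
      exact h4 ▸ h3
    have h3 := LinearMap.finrank_range_of_inj h2
    rw [LinearMap.range_domRestrict] at h3
    rw [← h3]
    exact Submodule.finrank_mono h1)
  have hs : ∀ j : ℤ, finrank K (W ⊓ T.maxGenEigenspace (j : K) : Submodule K V) =
      finrank K (W ⊓ T.maxGenEigenspace ((-j : ℤ) : K) : Submodule K V) := by
    intro j
    rw [← hS3, ← hS3]
    exact hsymm j
  have hhalf := half_blocks hB hrefl hχ hT hNs hN hinj hW hiso hs
  set c : ℕ → ℕ := fun m => S.count (m : ℤ) with hc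
  have hcW : ∀ m : ℕ, c m =
      finrank K (W ⊓ T.maxGenEigenspace ((m : ℤ) : K) : Submodule K V) := fun m => hS3 m
  have hmono : ∀ m, c (m + 2) ≤ c m := by
    intro m
    rw [hcW, hcW, ← finrank_map_N hinj m (A := W ⊓ T.maxGenEigenspace (((m + 2 : ℕ) : ℤ) : K))
      inf_le_right]
    apply Submodule.finrank_mono
    rintro _ ⟨x, hx, rfl⟩
    exact ⟨hNs W hW x hx.1, N_lower2 hN m hx.2⟩
  obtain ⟨M, hM⟩ := exists_bd S
  obtain ⟨R, hR1, hR2⟩ := exists_blocks c hmono (M + 1) (by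
    intro m hm
    apply Multiset.count_eq_zero_of_notMem
    intro h
    have h1 := hM _ h
    rw [Finset.mem_Icc] at h1
    omega)
  have hsum : R.sum = finrank K W := by
    rw [hR1, ← hS1]
    have h1 := sum_even (fun j : ℤ => S.count j) hsymm (M + 1)
    have h2 : ∑ j ∈ Finset.Icc (-((M + 1 : ℕ) : ℤ)) ((M + 1 : ℕ) : ℤ), S.count j = S.card := by
      apply Multiset.sum_count_eq_card
      intro j hj
      have h3 := hM j hj
      rw [Finset.mem_Icc] at h3 ⊢
      push_cast
      omega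
    rw [h2] at h1
    rw [h1]
    simp only [hc]
    push_cast
    rfl
  obtain ⟨m, hm1, hm2⟩ := htest R hsum
  obtain ⟨m, rfl⟩ : ∃ m', m = m' + 1 := ⟨m - 1, by omega⟩
  have h1 := hhalf m
  rw [← hcW, ← hcW] at h1
  have h2 := hmono m
  rw [hR2] at hm2
  have h3 : (((m + 1 : ℕ) : ℤ) - 1) = (m : ℤ) := by
    push_cast
    ring
  have h4 : (((m + 1 : ℕ) : ℤ) + 1) = ((m + 2 : ℕ) : ℤ) := by
    push_cast
    ring
  rw [h3, h4] at hm2
  omega

end HS89
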