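import Pool.Agent.W_b4801b_h89.Tests
import Pool.Agent.W_b4801b_h89.Mono2

/-!
# MP_b4801b_ag : local tests for semisimplicity, main results
-/

set_option autoImplicit false
set_option linter.unusedSectionVars false

open Module
open scoped Classical

namespace HS89

variable {K : Type*} [Field K] [IsAlgClosed K] [CharZero K] {G : Type*} [Group G]
  {V : Type*} [AddCommGroup V] [Module K V] [FiniteDimensional K V]
  {ρ : Representation K G V} {B : LinearMap.BilinForm K V} {χ : G → K}

theorem main (hB : B.Nondegenerate) (hrefl : B.IsRefl)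
    (hχ : ∀ g x y, B (ρ g x) (ρ g y) = χ g * B x y)
    (htest : ∀ a : ℕ, 1 ≤ a → 2 * a ≤ finrank K V →
      (∃ g, FrobeniusTest ρ χ a g) ∨ (∃ T, HodgeTest ρ B a T) ∨ ∃ T N, MonodromyTest ρ B a T N)
    (W : Submodule K V) (hW : Stable ρ W) :
    Stable ρ (B.orthogonal W) ∧ IsCompl W (B.orthogonal W) := by
  have hWp : Stable ρ (B.orthogonal W) := stable_orth hχ hW
  refine ⟨hWp, ?_⟩
  rw [LinearMap.BilinForm.isCompl_orthogonal_iff_disjoint hrefl, disjoint_iff]
  by_contra h0
  set U : Submodule K V := W ⊓ B.orthogonal W with hU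
  have hUs : Stable ρ U := fun g x hx => ⟨hW g x hx.1, hWp g x hx.2⟩
  have hiso : ∀ x ∈ U, ∀ y ∈ U, B x y = 0 := by
    intro x hx y hy
    exact LinearMap.BilinForm.mem_orthogonal_iff.1 hy.2 x hx.1
  have h1 : 1 ≤ finrank K U := Submodule.one_le_finrank_iff.2 h0
  have h2 : 2 * finrank K U ≤ finrank K V := by
    have h3 : U ≤ B.orthogonal U := by
      intro x hx
      exact LinearMap.BilinForm.mem_orthogonal_iff.2 fun y hy => hiso y hy x hx
    have h4 := LinearMap.BilinForm.finrank_orthogonal hB U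
    have h5 := Submodule.finrank_mono h3
    have h6 := Submodule.finrank_le U
    omega
  rcases htest _ h1 h2 with ⟨g, hg⟩ | ⟨T, hT⟩ | ⟨T, N, hTN⟩
  · exact frob_iso hB hχ hUs hiso h0 hg
  · exact hodge_iso hB hUs hiso hT
  · exact mono_iso hB hrefl hχ hUs hiso hTN

/-- small weights, each of multiplicity at most one -/
theorem small_test {T : End K V} (hT : WeightOp ρ B T) (h1 : ∀ j, mult T j ≤ 1)
    (h2 : (∀ j, mult T j ≠ 0 → j ∈ ({-5, -3, -1, 1, 3, 5} : Finset ℤ)) ∨
      ∀ j, mult T j ≠ 0 → j ∈ ({-4, -2, 0, 2, 4} : Finset ℤ)) {a : ℕ} (ha : 1 ≤ a) :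
    HodgeTest ρ B a T := by
  refine ⟨hT, ?_⟩
  intro S hS hc h0
  have hS0 : S ≠ 0 := by
    rintro rfl
    rw [Multiset.card_zero] at hS
    omega
  apply hS0
  have key : ∀ F : Finset ℤ, (∀ j, mult T j ≠ 0 → j ∈ F) → S.toFinset ⊆ F := by
    intro F hF j hj
    apply hF
    have h3 : 0 < S.count j := Multiset.count_pos.2 (Multiset.mem_toFinset.1 hj)
    have h4 := hc j
    omega
  have hcount : ∀ F : Finset ℤ, (∀ j, mult T j ≠ 0 → j ∈ F) → (∀ j ∈ F, S.count j = 0) →
      S = 0 := by
    intro F hF h3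
    rw [Multiset.eq_zero_iff_forall_notMem]
    intro j hj
    have h4 := key F hF (Multiset.mem_toFinset.2 hj)
    exact absurd (h3 j h4) (Nat.pos_iff_ne_zero.1 (Multiset.count_pos.2 hj))
  rcases h2 with h2 | h2
  · have hsum := Finset.sum_multiset_count_of_subset S _ (key _ h2)
    rw [h0] at hsum
    norm_num at hsum
    have e1 := (hc 1).trans (h1 1)
    have e3 := (hc 3).trans (h1 3)
    have e5 := (hc 5).trans (h1 5)
    apply hcount _ h2
    intro j hj
    simp only [Finset.mem_insert, Finset.mem_singleton] at hj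
    have a1 : S.count 5 = 0 ∨ S.count 5 = 1 := by omega
    have a2 : S.count (-5) = 0 ∨ S.count (-5) = 1 := by omega
    have a3 : S.count 3 = 0 ∨ S.count 3 = 1 := by omega
    have a4 : S.count (-3) = 0 ∨ S.count (-3) = 1 := by omega
    rcases a1 with a1 | a1 <;> rcases a2 with a2 | a2 <;> rcases a3 with a3 | a3 <;>
      rcases a4 with a4 | a4 <;> rcases hj with rfl | rfl | rfl | rfl | rfl | rfl <;> omega
  · have hsum := Finset.sum_multiset_count_of_subset S _ (key _ h2)
    rw [h0] at hsum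
    norm_num at hsum
    have e0 := (hc 0).trans (h1 0)
    have e2 := (hc 2).trans (h1 2)
    have e4 := (hc 4).trans (h1 4)
    rw [neg_zero] at e0
    apply hcount _ h2
    intro j hj
    simp only [Finset.mem_insert, Finset.mem_singleton] at hj
    rcases hj with rfl | rfl | rfl | rfl | rfl <;> omega

end HS89
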