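import Pool.Agent.W_b4801b_h89.Hodge

/-!
# MP_b4801b_ag : the monodromy test excludes isotropic stable subspaces
-/

set_option autoImplicit false
set_option linter.unusedSectionVars false

open Module
open scoped Classical

namespace HS89

variable {K : Type*} [Field K] [IsAlgClosed K] [CharZero K] {G : Type*} [Group G]
  {V : Type*} [AddCommGroup V] [Module K V] [FiniteDimensional K V]
  {ρ : Representation K G V} {B : LinearMap.BilinForm K V} {T N : End K V}

/-- `N` lowers the weights by two -/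
theorem N_lower (hN : T * N - N * T = -(2 : K) • N) (j : ℤ) {x : V}
    (hx : x ∈ T.maxGenEigenspace (j : K)) : N x ∈ T.maxGenEigenspace ((j - 2 : ℤ) : K) := by
  rw [End.mem_maxGenEigenspace] at hx ⊢
  obtain ⟨k, hk⟩ := hx
  refine ⟨k, ?_⟩
  have h1 : (T - ((j - 2 : ℤ) : K) • (1 : End K V)) * N =
      N * (T - (j : K) • (1 : End K V)) := by
    have h2 : T * N = N * T + -(2 : K) • N := by
      rw [← hN]
      abel
    rw [sub_mul, mul_sub, h2, smul_mul_assoc, one_mul, mul_smul_comm, mul_one]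
    push_cast
    rw [sub_smul, neg_smul]
    abel
  have h3 : ∀ k : ℕ, (T - ((j - 2 : ℤ) : K) • (1 : End K V)) ^ k * N =
      N * (T - (j : K) • (1 : End K V)) ^ k := by
    intro k
    induction k with
    | zero => rw [pow_zero, pow_zero, one_mul, mul_one]
    | succ k ih => rw [pow_succ', pow_succ', mul_assoc, ih, ← mul_assoc, h1, mul_assoc]
  have h4 := LinearMap.congr_fun (h3 k) x
  rw [Module.End.mul_apply, Module.End.mul_apply, hk, map_zero] at h4
  exact h4

theorem N_pow_lower (hN : T * N - N * T = -(2 : K) • N) (k : ℕ) (j : ℤ) {x : V}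
    (hx : x ∈ T.maxGenEigenspace (j : K)) :
    (N ^ k) x ∈ T.maxGenEigenspace ((j - 2 * k : ℤ) : K) := by
  induction k generalizing j x with
  | zero =>
    rw [pow_zero, Module.End.one_apply]
    have h2 : (j - 2 * ((0 : ℕ) : ℤ)) = j := by
      push_cast
      ring
    rw [h2]
    exact hx
  | succ k ih =>
    rw [pow_succ, Module.End.mul_apply]
    have h1 := ih (j - 2) (N_lower hN j hx)
    have h2 : (j - 2 - 2 * (k : ℤ)) = (j - 2 * ((k + 1 : ℕ) : ℤ)) := by
      push_cast
      ring
    rw [h2] at h1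
    exact h1

theorem pow_stable {W : Submodule K V} (hW : ∀ x ∈ W, N x ∈ W) (k : ℕ) {x : V} (hx : x ∈ W) :
    (N ^ k) x ∈ W := by
  induction k generalizing x with
  | zero =>
    rw [pow_zero, Module.End.one_apply]
    exact hx
  | succ k ih =>
    rw [pow_succ, Module.End.mul_apply]
    exact ih (hW x hx)

/-- An element of weight `-j` of `W` comes from an element of weight `j` of `W`. -/
theorem lef_surj (hN : T * N - N * T = -(2 : K) • N)
    (hinj : ∀ j : ℕ, 1 ≤ j → ∀ x ∈ T.maxGenEigenspace (j : K), (N ^ j) x = 0 → x = 0)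
    {W : Submodule K V} (hW : ∀ x ∈ W, N x ∈ W) (j : ℕ) (hj : 1 ≤ j)
    (hdim : finrank K (W ⊓ T.maxGenEigenspace ((j : ℤ) : K) : Submodule K V) =
      finrank K (W ⊓ T.maxGenEigenspace ((-(j : ℤ) : ℤ) : K) : Submodule K V)) {y : V}
    (hy : y ∈ (W ⊓ T.maxGenEigenspace ((-(j : ℤ) : ℤ) : K) : Submodule K V)) :
    ∃ x ∈ (W ⊓ T.maxGenEigenspace ((j : ℤ) : K) : Submodule K V), (N ^ j) x = y := by
  have hle : (W ⊓ T.maxGenEigenspace ((j : ℤ) : K) : Submodule K V).map (N ^ j) ≤
      (W ⊓ T.maxGenEigenspace ((-(j : ℤ) : ℤ) : K) : Submodule K V) := by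
    rintro _ ⟨x, hx, rfl⟩
    refine ⟨pow_stable hW j hx.1, ?_⟩
    have h1 := N_pow_lower hN j (j : ℤ) hx.2
    have h2 : ((j : ℤ) - 2 * (j : ℤ)) = -(j : ℤ) := by ring
    rw [h2] at h1
    exact h1
  have hinj' : Function.Injective ((N ^ j).domRestrict
      (W ⊓ T.maxGenEigenspace ((j : ℤ) : K) : Submodule K V)) := by
    rw [← LinearMap.ker_eq_bot, Submodule.eq_bot_iff]
    intro x hx
    rw [LinearMap.mem_ker] at hx
    apply Subtype.ext
    refine hinj j hj x.1 ?_ hx
    have h3 : x.1 ∈ T.maxGenEigenspace ((j : ℤ) : K) := x.2.2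
    have h4 : T.maxGenEigenspace ((j : ℤ) : K) = T.maxGenEigenspace (j : K) := by
      rw [Int.cast_natCast]
    exact h4 ▸ h3
  have hfin : finrank K ((W ⊓ T.maxGenEigenspace ((j : ℤ) : K) : Submodule K V).map (N ^ j)) =
      finrank K (W ⊓ T.maxGenEigenspace ((j : ℤ) : K) : Submodule K V) := by
    rw [← LinearMap.range_domRestrict]
    exact LinearMap.finrank_range_of_inj hinj'
  have heq := Submodule.eq_of_le_of_finrank_eq hle (hfin.trans hdim)
  rw [← heq] at hy
  obtain ⟨x, hx, hxy⟩ := hy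
  exact ⟨x, hx, hxy⟩

/-- The key claim. -/
theorem key_mem (hN : T * N - N * T = -(2 : K) • N)
    (hinj : ∀ j : ℕ, 1 ≤ j → ∀ x ∈ T.maxGenEigenspace (j : K), (N ^ j) x = 0 → x = 0)
    {W : Submodule K V} (hW : ∀ x ∈ W, N x ∈ W) (j : ℕ)
    (hdim : finrank K (W ⊓ T.maxGenEigenspace (((j + 2 : ℕ) : ℤ) : K) : Submodule K V) =
      finrank K (W ⊓ T.maxGenEigenspace ((-((j + 2 : ℕ) : ℤ) : ℤ) : K) : Submodule K V)) {x : V}
    (hx : x ∈ T.maxGenEigenspace (((j + 2 : ℕ) : ℤ) : K)) (hNx : N x ∈ W) : x ∈ W := by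
  have h1 : (N ^ (j + 2)) x ∈
      (W ⊓ T.maxGenEigenspace ((-((j + 2 : ℕ) : ℤ) : ℤ) : K) : Submodule K V) := by
    refine ⟨?_, ?_⟩
    · rw [show j + 2 = (j + 1) + 1 from rfl, pow_succ, Module.End.mul_apply]
      exact pow_stable hW (j + 1) hNx
    · have h2 := N_pow_lower hN (j + 2) ((j + 2 : ℕ) : ℤ) hx
      have h3 : (((j + 2 : ℕ) : ℤ) - 2 * ((j + 2 : ℕ) : ℤ)) = -((j + 2 : ℕ) : ℤ) := by ring
      rw [h3] at h2
      exact h2
  obtain ⟨z, hz, hzx⟩ := lef_surj hN hinj hW (j + 2) (by omega) hdim h1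
  have h4 : x - z = 0 := by
    apply hinj (j + 2) (by omega)
    · have h5 := Submodule.sub_mem _ hx hz.2
      rw [Int.cast_natCast] at h5
      exact h5
    · rw [map_sub, hzx, sub_self]
  rw [sub_eq_zero.1 h4]
  exact hz.1

/-- The orthogonal of a stable subspace in a weight space is large. -/
theorem perp_ge (hT : WeightOp ρ B T) {W : Submodule K V} (hW : Stable ρ W)
    {W' : Submodule K V} (hW' : ∀ x, (∀ y ∈ W, B y x = 0) → x ∈ W') (j : ℤ) :
    mult T j ≤ finrank K (W' ⊓ T.maxGenEigenspace (j : K) : Submodule K V) +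
      finrank K (W ⊓ T.maxGenEigenspace ((-j : ℤ) : K) : Submodule K V) := by
  set X : Submodule K V := T.maxGenEigenspace (j : K) with hX
  set Y : Submodule K V := W ⊓ T.maxGenEigenspace ((-j : ℤ) : K) with hY
  let ψ : X →ₗ[K] Dual K Y := (Y.subtype.dualMap ∘ₗ B.flip) ∘ₗ X.subtype
  have hψ : ∀ (x : X) (y : Y), ψ x y = B y x := fun x y => rfl
  have h1 := LinearMap.finrank_range_add_finrank_ker ψ
  have h2 : finrank K (LinearMap.range ψ) ≤ finrank K Y := by
    rw [← Subspace.dual_finrank_eq (V := Y)]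
    exact Submodule.finrank_le _
  have h3 : finrank K (LinearMap.ker ψ) ≤ finrank K (W' ⊓ X : Submodule K V) := by
    rw [(Submodule.equivMapOfInjective X.subtype (Submodule.injective_subtype X)
      (LinearMap.ker ψ)).finrank_eq]
    apply Submodule.finrank_mono
    rintro _ ⟨x, hx, rfl⟩
    refine ⟨?_, x.2⟩
    apply hW'
    intro y hy
    set f : End K W := T.restrict (hT.stable W hW) with hf
    have hy' : (⟨y, hy⟩ : W) ∈ (⨆ b : K, f.maxGenEigenspace b) := by
      rw [End.iSup_maxGenEigenspace_eq_top]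
      trivial
    have key : ∀ z : W, z ∈ (⨆ b : K, f.maxGenEigenspace b) → B (z : V) (x : V) = 0 := by
      intro z hz
      induction hz using Submodule.iSup_induction' with
      | mem b z hz =>
        have hz' : (z : V) ∈ (W ⊓ T.maxGenEigenspace b : Submodule K V) := by
          have h4 : (W ⊓ T.maxGenEigenspace b : Submodule K V) =
              (End.maxGenEigenspace f b).map W.subtype :=
            Submodule.inf_genEigenspace T W (hT.stable W hW)
          rw [h4]
          exact ⟨z, hz, rfl⟩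
        by_cases hb : b = ((-j : ℤ) : K)
        · subst hb
          have h5 : ψ x = 0 := hx
          have h6 := hψ x ⟨z, hz'⟩
          rw [h5] at h6
          exact h6.symm
        · have h7 : (x : V) ∈ (-T).maxGenEigenspace ((-j : ℤ) : K) := by
            apply gen_neg (-j)
            rw [neg_neg]
            exact x.2
          exact gen_orth (skew' hT) hb hz'.2 h7
      | zero => rw [ZeroMemClass.coe_zero, map_zero, LinearMap.zero_apply]
      | add z w _ _ hz hw =>
        rw [Submodule.coe_add, map_add, LinearMap.add_apply, hz, hw, add_zero]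
    exact key ⟨y, hy⟩ hy'
  have h8 : mult T j = finrank K X := rfl
  omega

end HS89
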