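import Mathlib

/-!
# MP_b4801b_ag : local tests for semisimplicity, linear algebra

`V` is a finite dimensional vector space over an algebraically closed field with a nondegenerate
form `B`.  For an isotropic subspace `W` and an adjoint pair `f`, `f'` the generalised eigenspaces
of `f` and `f'` on `W` have small dimension.
-/

set_option autoImplicit false

set_option linter.unusedSectionVars false

open Module
open scoped Classical

namespace HS89

variable {K : Type*} [Field K] {V : Type*} [AddCommGroup V] [Module K V] [FiniteDimensional K V]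
  {B : LinearMap.BilinForm K V}

/-- two orthogonal pieces of two subspaces in duality -/
theorem pair_le (X X' Y' : Submodule K V) (hXY : ∀ y ∈ Y', (∀ x ∈ X, B x y = 0) → y = 0)
    (hX' : X' ≤ X) (h0 : ∀ x ∈ X', ∀ y ∈ Y', B x y = 0) :
    finrank K X' + finrank K Y' ≤ finrank K X := by
  let U : Submodule K X := X'.comap X.subtype
  have hU : finrank K U = finrank K X' := (Submodule.comapSubtypeEquivOfLe hX').finrank_eq
  let ψ : Y' →ₗ[K] Dual K X := (X.subtype.dualMap ∘ₗ B.flip) ∘ₗ Y'.subtype
  have hψ : ∀ (y : Y') (x : X), ψ y x = B x y := fun y x => rfl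
  have hinj : Function.Injective ψ := by
    rw [← LinearMap.ker_eq_bot, Submodule.eq_bot_iff]
    intro y hy
    rw [LinearMap.mem_ker] at hy
    have h1 : (y : V) = 0 := by
      apply hXY y y.2
      intro x hx
      have h2 := hψ y ⟨x, hx⟩
      rw [hy] at h2
      exact h2.symm
    exact Subtype.ext h1
  have hran : LinearMap.range ψ ≤ U.dualAnnihilator := by
    rintro _ ⟨y, rfl⟩
    rw [Submodule.mem_dualAnnihilator]
    intro x hx
    rw [hψ]
    exact h0 x hx y y.2
  have h1 := Submodule.finrank_mono hran
  rw [LinearMap.finrank_range_of_inj hinj] at h1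
  have h2 := Subspace.finrank_add_finrank_dualAnnihilator_eq U
  omega

/-- generalised eigenspaces of an adjoint pair are orthogonal -/
theorem gen_orth {f f' : End K V} (hff : ∀ x y, B (f x) y = B x (f' y)) {a b : K} (hab : a ≠ b)
    {x y : V} (hx : x ∈ f.maxGenEigenspace a) (hy : y ∈ f'.maxGenEigenspace b) : B x y = 0 := by
  rw [End.mem_maxGenEigenspace] at hx hy
  obtain ⟨k, hk⟩ := hx
  obtain ⟨l, hl⟩ := hy
  have key : ∀ n k l : ℕ, k + l ≤ n → ∀ x y : V, ((f - a • (1 : End K V)) ^ k) x = 0 →
      ((f' - b • (1 : End K V)) ^ l) y = 0 → B x y = 0 := by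
    intro n
    induction n with
    | zero =>
      intro k l hkl x y hx hy
      have hk0 : k = 0 := by omega
      subst hk0
      rw [pow_zero, Module.End.one_apply] at hx
      rw [hx, map_zero, LinearMap.zero_apply]
    | succ n ih =>
      intro k l hkl x y hx hy
      rcases Nat.eq_zero_or_pos k with rfl | hk
      · rw [pow_zero, Module.End.one_apply] at hx
        rw [hx, map_zero, LinearMap.zero_apply]
      · rcases Nat.eq_zero_or_pos l with rfl | hl
        · rw [pow_zero, Module.End.one_apply] at hy
          rw [hy, map_zero]
        · obtain ⟨k, rfl⟩ : ∃ k', k = k' + 1 := ⟨k - 1, by omega⟩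
          obtain ⟨l, rfl⟩ : ∃ l', l = l' + 1 := ⟨l - 1, by omega⟩
          have h1 : B ((f - a • (1 : End K V)) x) y = 0 := by
            apply ih k (l + 1) (by omega) _ _ _ hy
            rw [pow_succ, Module.End.mul_apply] at hx
            exact hx
          have h2 : B x ((f' - b • (1 : End K V)) y) = 0 := by
            apply ih (k + 1) l (by omega) _ _ hx
            rw [pow_succ, Module.End.mul_apply] at hy
            exact hy
          rw [LinearMap.sub_apply, LinearMap.smul_apply, Module.End.one_apply, map_sub,
            LinearMap.sub_apply, map_smul, LinearMap.smul_apply, hff] at h1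
          rw [LinearMap.sub_apply, LinearMap.smul_apply, Module.End.one_apply, map_sub,
            map_smul] at h2
          have h3 : (b - a) • B x y = 0 := by
            rw [sub_smul]
            have h4 : B x (f' y) = a • B x y := sub_eq_zero.1 h1
            have h5 : B x (f' y) = b • B x y := sub_eq_zero.1 h2
            rw [← h4, ← h5, sub_self]
          rw [smul_eq_mul] at h3
          exact (mul_eq_zero.1 h3).resolve_left (sub_ne_zero.2 hab.symm)
  exact key (k + l) k l le_rfl x y hk hl

/-- the pairing of the generalised eigenspaces for the same eigenvalue is perfect -/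
theorem gen_perf [IsAlgClosed K] (hB : B.Nondegenerate) {f f' : End K V}
    (hff : ∀ x y, B (f x) y = B x (f' y)) {a : K} {y : V} (hy : y ∈ f'.maxGenEigenspace a)
    (h : ∀ x ∈ f.maxGenEigenspace a, B x y = 0) : y = 0 := by
  apply hB.2
  intro x
  have hx : x ∈ (⨆ b : K, f.maxGenEigenspace b) := by
    rw [End.iSup_maxGenEigenspace_eq_top]
    trivial
  induction hx using Submodule.iSup_induction' with
  | mem b x hx =>
    by_cases hab : b = a
    · subst hab
      exact h x hx
    · exact gen_orth hff hab hx hy
  | zero => rw [map_zero, LinearMap.zero_apply]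
  | add x z _ _ hx hz => rw [map_add, LinearMap.add_apply, hx, hz, add_zero]

/-- the main inequality for isotropic subspaces -/
theorem iso_le [IsAlgClosed K] (hB : B.Nondegenerate) {f f' : End K V}
    (hff : ∀ x y, B (f x) y = B x (f' y)) {W : Submodule K V}
    (hW : ∀ x ∈ W, ∀ y ∈ W, B x y = 0) {a : K} {Z : Submodule K V}
    (hZ : Z ≤ f'.maxGenEigenspace a) :
    finrank K (W ⊓ f.maxGenEigenspace a : Submodule K V) + finrank K (W ⊓ Z : Submodule K V) ≤
      finrank K (f.maxGenEigenspace a) := by
  apply pair_le (B := B)
  · intro y hy h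
    exact gen_perf hB hff (hZ hy.2) h
  · exact inf_le_right
  · intro x hx y hy
    exact hW x hx.1 y hy.1

/-- the dimension of the generalised eigenspaces of a restriction -/
theorem finrank_inf_gen {f : End K V} {W : Submodule K V} (hf : ∀ x ∈ W, f x ∈ W) (a : K) :
    finrank K (W ⊓ f.maxGenEigenspace a : Submodule K V) =
      (LinearMap.charpoly (f.restrict hf)).roots.count a := by
  have h1 : (W ⊓ f.maxGenEigenspace a : Submodule K V) =
      (End.maxGenEigenspace (f.restrict hf) a).map W.subtype := Submodule.inf_genEigenspace f W hf
  rw [h1, ← (Submodule.equivMapOfInjective W.subtype (Submodule.injective_subtype W)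
    (End.maxGenEigenspace (f.restrict hf) a)).finrank_eq, LinearMap.finrank_maxGenEigenspace_eq,
    Polynomial.count_roots]

theorem card_roots_restrict [IsAlgClosed K] (f : End K V) :
    f.charpoly.roots.card = finrank K V := by
  rw [← LinearMap.charpoly_natDegree f]
  exact (IsAlgClosed.splits f.charpoly).natDegree_eq_card_roots.symm

end HS89
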