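import Pool.Agent.W_b4801b_h89.Pair
import Pool.Agent.W_b4801b_h89.Defs

/-!
# MP_b4801b_ag : the three tests exclude isotropic stable subspaces
-/

set_option autoImplicit false
set_option linter.unusedSectionVars false

open Module
open scoped Classical

namespace HS89

variable {K : Type*} [Field K] [IsAlgClosed K] [CharZero K] {G : Type*} [Group G]
  {V : Type*} [AddCommGroup V] [Module K V] [FiniteDimensional K V]
  {ρ : Representation K G V} {B : LinearMap.BilinForm K V} {χ : G → K}

/-- the multiplier does not vanish -/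
theorem chi_ne (hB : B.Nondegenerate) (hχ : ∀ g x y, B (ρ g x) (ρ g y) = χ g * B x y)
    {x : V} (hx : x ≠ 0) (g : G) : χ g ≠ 0 := by
  intro h0
  apply hx
  have h1 : ρ g x = 0 := by
    apply hB.1
    intro z
    have h2 := hχ g x (ρ g⁻¹ z)
    rw [h0, zero_mul, ← Module.End.mul_apply, ← map_mul, mul_inv_cancel, map_one,
      Module.End.one_apply] at h2
    exact h2
  have h3 : ρ g⁻¹ (ρ g x) = x := by
    rw [← Module.End.mul_apply, ← map_mul, inv_mul_cancel, map_one, Module.End.one_apply]
  rw [← h3, h1, map_zero]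

theorem adj_g (hχ : ∀ g x y, B (ρ g x) (ρ g y) = χ g * B x y) (g : G) (x y : V) :
    B (ρ g x) y = B x ((χ g • ρ g⁻¹) y) := by
  have h2 := hχ g x (ρ g⁻¹ y)
  rw [← Module.End.mul_apply (ρ g) (ρ g⁻¹), ← map_mul, mul_inv_cancel, map_one,
    Module.End.one_apply] at h2
  rw [h2, LinearMap.smul_apply, map_smul, smul_eq_mul]

theorem gen_inv {a : K} (ha : a ≠ 0) (g : G) :
    End.maxGenEigenspace (ρ g) (χ g / a) ≤ End.maxGenEigenspace (χ g • ρ g⁻¹) a := by
  intro x hx
  rw [End.mem_maxGenEigenspace] at hx ⊢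
  obtain ⟨k, hk⟩ := hx
  refine ⟨k, ?_⟩
  have h1 : χ g • ρ g⁻¹ - a • (1 : End K V) =
      (-(a • ρ g⁻¹)) * (ρ g - (χ g / a) • (1 : End K V)) := by
    rw [mul_sub, neg_mul, smul_mul_assoc, ← map_mul, inv_mul_cancel, map_one, neg_mul,
      sub_neg_eq_add, smul_mul_smul_comm, mul_one, mul_div_cancel₀ _ ha]
    abel
  have h2 : Commute (-(a • ρ g⁻¹)) (ρ g - (χ g / a) • (1 : End K V)) := by
    apply Commute.sub_right
    · apply Commute.neg_left
      apply Commute.smul_left
      show ρ g⁻¹ * ρ g = ρ g * ρ g⁻¹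
      rw [← map_mul, ← map_mul, inv_mul_cancel, mul_inv_cancel]
    · exact (Commute.one_right _).smul_right _
  rw [h1, h2.mul_pow, Module.End.mul_apply, hk, map_zero]

theorem count_div (c : K) (hc : c ≠ 0) (S : Multiset K) (hS : (0 : K) ∉ S) (a : K) :
    (S.map fun x => c / x).count a = S.count (c / a) := by
  by_cases h : c / a ∈ S
  · have h1 := Multiset.count_map_eq_count (fun x : K => c / x) S (by
      intro x hx y hy hxy
      have hx0 : x ≠ 0 := fun h0 => hS (h0 ▸ hx)
      have hy0 : y ≠ 0 := fun h0 => hS (h0 ▸ hy)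
      simp only at hxy
      rw [div_eq_div_iff hx0 hy0] at hxy
      exact (mul_left_cancel₀ hc hxy).symm) (c / a) h
    rw [← h1]
    congr 1
    rw [div_div_cancel₀ hc]
  · rw [Multiset.count_eq_zero_of_notMem h, Multiset.count_eq_zero_of_notMem]
    intro h1
    rw [Multiset.mem_map] at h1
    obtain ⟨x, hx, hxa⟩ := h1
    apply h
    rw [← hxa, div_div_cancel₀ hc]
    exact hx

theorem frob_iso (hB : B.Nondegenerate) (hχ : ∀ g x y, B (ρ g x) (ρ g y) = χ g * B x y)
    {W : Submodule K V} (hW : Stable ρ W) (hiso : ∀ x ∈ W, ∀ y ∈ W, B x y = 0) (h0 : W ≠ ⊥)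
    {g : G} (ht : FrobeniusTest ρ χ (finrank K W) g) : False := by
  obtain ⟨h1, h2⟩ := ht
  obtain ⟨x0, hx0, hx0'⟩ := (Submodule.ne_bot_iff W).1 h0
  have hc : χ g ≠ 0 := chi_ne hB hχ hx0' g
  set f : End K W := (ρ g).restrict (hW g) with hf
  set S : Multiset K := f.charpoly.roots with hS
  have hcount : ∀ a : K, S.count a =
      finrank K (W ⊓ End.maxGenEigenspace (ρ g) a : Submodule K V) := fun a =>
    (finrank_inf_gen (hW g) a).symm
  have hS0 : (0 : K) ∉ S := by
    intro h3
    have h4 : 0 < S.count 0 := Multiset.count_pos.2 h3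
    rw [hcount 0] at h4
    have h5 : (W ⊓ End.maxGenEigenspace (ρ g) 0 : Submodule K V) = ⊥ := by
      rw [eq_bot_iff]
      rintro x ⟨_, hx⟩
      have hx' : x ∈ End.maxGenEigenspace (ρ g) 0 := hx
      rw [End.mem_maxGenEigenspace] at hx'
      obtain ⟨k, hk⟩ := hx'
      rw [zero_smul, sub_zero] at hk
      have h6 : ((ρ g⁻¹) ^ k * (ρ g) ^ k) x = x := by
        rw [← map_pow, ← map_pow, ← map_mul, inv_pow, inv_mul_cancel, map_one,
          Module.End.one_apply]
      rw [Module.End.mul_apply, hk, map_zero] at h6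
      rw [Submodule.mem_bot]
      exact h6.symm
    rw [h5, finrank_bot] at h4
    exact lt_irrefl _ h4
  have hcard : S.card = finrank K W := card_roots_restrict f
  obtain ⟨m, hm, hdet⟩ := h1 W hW
  refine h2 S hcard ?_ m hm ?_
  · rw [Multiset.le_iff_count]
    intro a
    rw [Multiset.count_add]
    have hV : (ρ g).charpoly.roots.count a = finrank K (End.maxGenEigenspace (ρ g) a) := by
      rw [Polynomial.count_roots, LinearMap.finrank_maxGenEigenspace_eq]
    rw [hV]
    by_cases ha : a = 0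
    · subst ha
      rw [Multiset.count_eq_zero_of_notMem hS0, Multiset.count_eq_zero_of_notMem]
      · omega
      · intro h3
        rw [Multiset.mem_map] at h3
        obtain ⟨x, hx, hxa⟩ := h3
        rcases div_eq_zero_iff.1 hxa with h4 | h4
        · exact hc h4
        · exact hS0 (h4 ▸ hx)
    · rw [count_div _ hc S hS0 a, hcount, hcount]
      exact iso_le hB (adj_g hχ g) hiso (gen_inv ha g)
  · rw [← End.det_eq_prod_roots_charpoly_of_splits (IsAlgClosed.splits f.charpoly), hf, hdet]

end HS89
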